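import Pool.Agent.Lib.MP_42180a_gt.Data

open Pool.Agent.Lib.MP_42180a_gt

theorem Pool.Agent.Results.MP_42180a_gt.Counterexample.result :
    ∃ (M : Type) (_ : TopologicalSpace M) (_ : ChartedSpace E4 M),
      T2Space M ∧ CompactSpace M ∧ ConnectedSpace M ∧ IsPLManifold M ∧ SimplyConnectedSpace M ∧
      ∃ T : Gluing 32, T.Triangulates M ∧
        (∀ (P : Fin 32) (a b : Pent), (∀ j, a.1 j = 0 ↔ b.1 j = 0) → T.cell P a = T.cell P b →
          a = b) ∧ (32 : Cardinal) ≤ 2 * betti2 M := by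
  obtain ⟨c, h1, h2⟩ := Gluing.exists_chartedSpace T0_valid T0_links
  have hs : SimplyConnectedSpace T0.Space :=
    Gluing.simplyConnected T0 T0_valid T0_SC _ T0_vertex
  refine ⟨T0.Space, inferInstance, c, inferInstance, inferInstance, inferInstance, h1, hs, T0, h2,
    fun P a b hab h => ?_, ?_⟩
  · obtain ⟨g, h3, h4⟩ := Gluing.cell_eq_iff.1 h
    have h5 : g '' Gluing.supp a = Gluing.supp a := by
      ext j
      constructor
      · rintro ⟨m, hm, rfl⟩
        exact fun h0 => hm (h4 m ▸ (hab _).1 h0)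
      · exact fun hj => ⟨g⁻¹ j, fun h0 => hj ((hab j).2 (by simpa using (h4 _).trans h0)), by simp⟩
    refine Subtype.ext (funext fun j => ?_)
    by_cases hj : a.1 j = 0
    · rw [hj, (hab j).1 hj]
    · rw [← h4 j, T0_valid P _ g h3 h5 j hj]
  · calc (32 : Cardinal) = 2 * 16 := by norm_num
      _ ≤ 2 * betti2 T0.Space := by gcongr; exact T0_betti
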